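import Mathlib
import Pool.Agent.V1160.OmegaOne

/-!
# Every omega-bounded dense subgroup of `(Z/2)^ω₁` determines it
-/

namespace Pool.Agent.Results.MP_04f724_gt.Determined

open Set Topology Filter TopologicalSpace Pool.Agent.V1160.OmegaOne

/-- The dual group: continuous homomorphisms to `ℝ / ℤ` with the compact-open topology. -/
abbrev Dual (H : Type*) [AddCommGroup H] [TopologicalSpace H] := H →ₜ+ UnitAddCircle

/-- Restriction of characters from `G` to the subgroup `H`. -/
def restr {G : Type*} [AddCommGroup G] [TopologicalSpace G] (H : AddSubgroup G) :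
    Dual G → Dual H := fun χ =>
  { toFun := fun h => χ (h : G)
    map_zero' := map_zero χ
    map_add' := fun a b => map_add χ (a : G) (b : G)
    continuous_toFun := χ.continuous_toFun.comp continuous_subtype_val }

/-- `H` determines `G`: restriction of characters is a topological isomorphism. -/
def Determines {G : Type*} [AddCommGroup G] [TopologicalSpace G] (H : AddSubgroup G) : Prop :=
  IsHomeomorph (restr H)

/-- `H` is `ω`-bounded: the closure of each countable subset of `H` is compact. -/
def OmegaBounded (H : Type*) [TopologicalSpace H] : Prop :=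
  ∀ S : Set H, S.Countable → IsCompact (closure S)

/-- The compact group `(Z/2)^ω₁`. -/
abbrev G2 : Type := W1 → ZMod 2

theorem nhds_pi_basis {s : Set G2} {x : G2} (hs : s ∈ 𝓝 x) :
    ∃ F : Finset W1, ∀ y : G2, (∀ i ∈ F, y i = x i) → y ∈ s := by
  obtain ⟨t, hts, hto, hxt⟩ := mem_nhds_iff.1 hs
  obtain ⟨F, u, hu, hsub⟩ := isOpen_pi_iff.1 hto x hxt
  refine ⟨F, fun y hy => hts (hsub fun i hi => ?_)⟩
  rw [hy i hi]
  exact (hu i hi).2

theorem cyl_mem_nhds (F : Finset W1) (x : G2) : {y : G2 | ∀ i ∈ F, y i = x i} ∈ 𝓝 x := by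
  have : {y : G2 | ∀ i ∈ F, y i = x i} = (F : Set W1).pi fun i => {x i} := by
    ext y; simp [Set.mem_pi]
  rw [this]
  exact set_pi_mem_nhds F.finite_toSet fun i _ => by simp

theorem not_metrizable : ¬ MetrizableSpace G2 := by
  intro h
  let _ := metrizableSpaceMetric G2
  obtain ⟨U, hU⟩ := (𝓝 (0 : G2)).exists_antitone_basis
  have hU' : ∀ n, ∃ F : Finset W1, ∀ y : G2, (∀ i ∈ F, y i = 0) → y ∈ U n := fun n =>
    nhds_pi_basis (hU.1.mem_of_mem trivial)
  choose F hF using hU'
  have hc : (⋃ n, (F n : Set W1)).Countable := countable_iUnion fun n => (F n).countable_toSet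
  obtain ⟨i, hi⟩ : ∃ i, i ∉ ⋃ n, (F n : Set W1) := by
    by_contra hcon
    push Not at hcon
    have := uncountable_W1
    exact not_countable_univ (α := W1) (hc.mono fun i _ => hcon i)
  obtain ⟨n, -, hn⟩ := hU.1.mem_iff.1 (cyl_mem_nhds {i} 0)
  have := hn (hF n (Pi.single i 1) fun j hj => Pi.single_eq_of_ne (fun h => hi (by
    rw [← h]; exact mem_iUnion.2 ⟨n, hj⟩)) 1)
  have h1 : (Pi.single i 1 : G2) i = 0 := this i (Finset.mem_singleton_self i)
  rw [Pi.single_eq_same] at h1
  exact absurd h1 (by decide)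

section

variable {H : AddSubgroup G2}

theorem exists_of_dense (hd : Dense (H : Set G2)) (F : Finset W1) (g : G2) :
    ∃ h : H, ∀ i ∈ F, (h : G2) i = g i := by
  obtain ⟨h, hh, hH⟩ := hd.inter_nhds_nonempty (cyl_mem_nhds F g)
  exact ⟨⟨h, hh⟩, hH⟩

/-- `G_δ`-density of dense `ω`-bounded subgroups. -/
theorem exists_of_countable (hd : Dense (H : Set G2)) (hb : OmegaBounded H) {A : Set W1}
    (hA : A.Countable) (g : G2) : ∃ h : H, ∀ i ∈ A, (h : G2) i = g i := by
  rcases A.eq_empty_or_nonempty with rfl | hne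
  · exact ⟨0, fun i hi => absurd hi (notMem_empty i)⟩
  obtain ⟨a, rfl⟩ := hA.exists_eq_range hne
  choose h hh using fun n : ℕ => exists_of_dense hd ((Finset.range (n + 1)).image a) g
  have hK : IsCompact (closure (range h)) := hb _ (countable_range h)
  obtain ⟨x, -, hx⟩ := hK.exists_clusterPt (f := map h atTop) (by
    rw [le_principal_iff, mem_map]
    exact Filter.univ_mem' fun n => subset_closure (mem_range_self n))
  refine ⟨x, ?_⟩
  rintro _ ⟨n, rfl⟩
  by_contra hxn
  have hU : {y : H | (y : G2) (a n) = (x : G2) (a n)} ∈ 𝓝 x := by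
    have hc : Continuous fun y : H => (y : G2) (a n) :=
      (continuous_apply (a n)).comp continuous_subtype_val
    exact hc.continuousAt.preimage_mem_nhds (t := {(x : G2) (a n)}) (by simp)
  have hfr : ∃ᶠ k in atTop, h k ∈ {y : H | (y : G2) (a n) = (x : G2) (a n)} :=
    hx.frequently hU
  obtain ⟨k, hk, hk'⟩ := (hfr.and_eventually (eventually_ge_atTop n)).exists
  have h1 : (h k : G2) (a n) = g (a n) :=
    hh k (a n) (Finset.mem_image.2 ⟨n, Finset.mem_range.2 (by omega), rfl⟩)
  exact hxn (by rw [← h1]; exact hk.symm)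

theorem two_smul_zero {T : AddSubgroup G2} (h : T) : 2 • h = 0 := by
  ext i
  have : ∀ z : ZMod 2, 2 • z = 0 := by decide
  exact this _

/-- A character of `H` takes values killed by `2`. -/
theorem two_smul_char (χ : Dual H) (h : H) : 2 • χ h = 0 := by
  rw [← map_nsmul, two_smul_zero, map_zero]

/-- a point of the circle different from `0` and killed by two is far from zero. -/
theorem eq_zero_of_mem {c : UnitAddCircle} (hc : 2 • c = 0) (h : ‖c‖ < 1 / 4) : c = 0 := by
  obtain ⟨m, hm, hm2⟩ := (AddCircle.nsmul_eq_zero_iff (by norm_num)).1 hc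
  interval_cases m
  · simpa using hm2.symm
  · exfalso
    have e : c = ((1 / 2 : ℝ) : UnitAddCircle) := by
      rw [← hm2]; norm_num
    rw [e, AddCircle.norm_eq] at h
    norm_num at h

theorem isOpen_small : IsOpen {c : UnitAddCircle | ‖c‖ < 1 / 4} :=
  isOpen_lt continuous_norm continuous_const

theorem restr_injective (hd : Dense (H : Set G2)) : Function.Injective (restr H) := by
  intro χ ψ h
  ext g
  have hcl : IsClosed {g : G2 | χ g = ψ g} :=
    isClosed_eq χ.continuous_toFun ψ.continuous_toFun
  have hsub : (H : Set G2) ⊆ {g : G2 | χ g = ψ g} := by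
    intro x hx
    exact DFunLike.congr_fun h (⟨x, hx⟩ : H)
  exact hcl.closure_subset_iff.2 hsub (hd g)

theorem restr_surjective (hd : Dense (H : Set G2)) : Function.Surjective (restr H) := by
  intro χ
  have hnhd : {h : H | ‖χ h‖ < 1 / 4} ∈ 𝓝 (0 : H) :=
    (isOpen_small.preimage χ.continuous_toFun).mem_nhds (by
      change ‖χ 0‖ < 1 / 4
      rw [map_zero]; simp)
  obtain ⟨W, hW, hWsub⟩ := mem_nhds_subtype _ _ _ |>.1 hnhd
  obtain ⟨F, hF⟩ := nhds_pi_basis hW
  have hker : ∀ h : H, (∀ i ∈ F, (h : G2) i = 0) → χ h = 0 := fun h hh =>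
    eq_zero_of_mem (two_smul_char χ h) (hWsub (hF _ hh))
  choose φ hφ using exists_of_dense hd F
  have hwd : ∀ (h h' : H), (∀ i ∈ F, (h : G2) i = (h' : G2) i) → χ h = χ h' := by
    intro h h' hh
    have := hker (h - h') fun i hi => by
      change (h : G2) i - (h' : G2) i = 0
      rw [hh i hi, sub_self]
    rw [map_sub, sub_eq_zero] at this
    exact this
  let ψ : G2 →+ UnitAddCircle := AddMonoidHom.mk' (fun g => χ (φ g)) (by
    intro a b
    rw [← map_add]
    refine hwd _ _ fun i hi => ?_
    change (φ (a + b) : G2) i = (φ a : G2) i + (φ b : G2) i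
    rw [hφ _ i hi, hφ _ i hi, hφ _ i hi]
    rfl)
  have hψ : Continuous ψ := by
    apply continuous_of_continuousAt_zero
    refine (tendsto_const_nhds (x := ψ 0)).congr' ?_
    filter_upwards [cyl_mem_nhds F 0] with g hg
    refine hwd _ _ fun i hi => ?_
    rw [hφ _ i hi, hφ _ i hi]
    exact (hg i hi).symm
  refine ⟨{ ψ with continuous_toFun := hψ }, ?_⟩
  ext h
  exact hwd _ _ fun i hi => hφ _ i hi

/-- A triangular family in `H`. -/
theorem exists_triangular (hd : Dense (H : Set G2)) (hb : OmegaBounded H) :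
    ∃ x : W1 → H, (∀ a, ∀ i < a, (x a : G2) i = 0) ∧ ∀ a, (x a : G2) a = 1 := by
  have hx : ∀ a : W1, ∃ h : H, (∀ i < a, (h : G2) i = 0) ∧ (h : G2) a = 1 := by
    intro a
    obtain ⟨h, hh⟩ := exists_of_countable hd hb (countable_Iic a) (Pi.single a 1)
    refine ⟨h, fun i hi => ?_, ?_⟩
    · rw [hh i (mem_Iic.2 hi.le), Pi.single_eq_of_ne hi.ne]
    · rw [hh a (mem_Iic.2 le_rfl), Pi.single_eq_same]
  choose x hx0 hx1 using hx
  exact ⟨x, hx0, hx1⟩

/-- The closure in `G2` of a triangular family in `H` lies in `H`. -/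
theorem closure_subset (hb : OmegaBounded H) (x : W1 → H)
    (hx0 : ∀ a, ∀ i < a, (x a : G2) i = 0) :
    closure (range fun a => (x a : G2)) ⊆ (H : Set G2) := by
  intro y hy
  by_contra hyH
  have hy0 : y ≠ 0 := fun h => hyH (h ▸ H.zero_mem)
  obtain ⟨c, hc⟩ := Function.ne_iff.1 hy0
  have hsplit : (range fun a => (x a : G2)) ⊆
      ((fun a => (x a : G2)) '' Iic c) ∪ ((fun a => (x a : G2)) '' Ioi c) := by
    rintro _ ⟨a, rfl⟩
    rcases le_or_gt a c with h | h
    · exact Or.inl (mem_image_of_mem (fun a => (x a : G2)) h)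
    · exact Or.inr (mem_image_of_mem (fun a => (x a : G2)) h)
  have hy' := closure_mono hsplit hy
  rw [closure_union] at hy'
  rcases hy' with h | h
  · apply hyH
    have hcomp : IsCompact (closure (x '' Iic c)) := hb _ ((countable_Iic c).image x)
    have hcomp' : IsCompact ((Subtype.val : H → G2) '' closure (x '' Iic c)) :=
      hcomp.image continuous_subtype_val
    have hsub : closure ((fun a => (x a : G2)) '' Iic c) ⊆
        (Subtype.val : H → G2) '' closure (x '' Iic c) := by
      refine closure_minimal ?_ hcomp'.isClosed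
      rintro _ ⟨a, ha, rfl⟩
      exact ⟨x a, subset_closure (mem_image_of_mem x ha), rfl⟩
    obtain ⟨z, -, rfl⟩ := hsub h
    exact z.2
  · apply hc
    have hcl : IsClosed {z : G2 | z c = 0} :=
      isClosed_eq (continuous_apply c) continuous_const
    have hsub : closure ((fun a => (x a : G2)) '' Ioi c) ⊆ {z : G2 | z c = 0} := by
      refine closure_minimal ?_ hcl
      rintro _ ⟨a, ha, rfl⟩
      exact hx0 a c ha
    exact hsub h

theorem exists_ker (χ : Dual H) : ∃ F : Finset W1, ∀ h : H, (∀ i ∈ F, (h : G2) i = 0) →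
    χ h = 0 := by
  have hnhd : {h' : H | ‖χ h'‖ < 1 / 4} ∈ 𝓝 (0 : H) :=
    (isOpen_small.preimage χ.continuous_toFun).mem_nhds (by
      change ‖χ 0‖ < 1 / 4
      rw [map_zero]; simp)
  obtain ⟨W, hW, hWsub⟩ := (mem_nhds_subtype _ _ _).1 hnhd
  obtain ⟨F, hF⟩ := nhds_pi_basis hW
  exact ⟨F, fun h hh => eq_zero_of_mem (two_smul_char χ h) (hWsub (hF _ hh))⟩

/-- A character vanishing on a triangular family vanishes. -/
theorem char_eq_zero (x : W1 → H) (hx0 : ∀ a, ∀ i < a, (x a : G2) i = 0)
    (hx1 : ∀ a, (x a : G2) a = 1) (χ : Dual H) (hχx : ∀ a, χ (x a) = 0) (h : H) :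
    χ h = 0 := by
  obtain ⟨F, hker⟩ := exists_ker χ
  have htri : ∀ F : Finset W1, ∃ y : H, χ y = 0 ∧ ∀ i ∈ F, (y : G2) i = (h : G2) i := by
    intro F
    induction F using Finset.induction_on_max with
    | empty => exact ⟨0, map_zero χ, fun i hi => absurd hi (Finset.notMem_empty i)⟩
    | insert m F hm ih =>
      obtain ⟨y, hy0, hy⟩ := ih
      by_cases hym : (y : G2) m = (h : G2) m
      · refine ⟨y, hy0, fun i hi => ?_⟩
        rcases Finset.mem_insert.1 hi with rfl | hi
        · exact hym
        · exact hy i hi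
      · refine ⟨y + x m, by rw [map_add, hy0, hχx, add_zero], fun i hi => ?_⟩
        rcases Finset.mem_insert.1 hi with rfl | hi
        · change (y : G2) i + (x i : G2) i = (h : G2) i
          rw [hx1]
          have : ∀ a b : ZMod 2, a ≠ b → a + 1 = b := by decide
          exact this _ _ hym
        · change (y : G2) i + (x m : G2) i = (h : G2) i
          rw [hx0 m i (hm i hi), add_zero, hy i hi]
  obtain ⟨y, hy0, hy⟩ := htri F
  have := hker (h - y) fun i hi => by
    change (h : G2) i - (y : G2) i = 0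
    rw [hy i hi, sub_self]
  rw [map_sub, hy0, sub_zero] at this
  exact this

/-- Compact-open subbasic sets are open. -/
theorem isOpen_mapsTo (K : Set H) (hKc : IsCompact K) (U : Set UnitAddCircle) (hU : IsOpen U) :
    IsOpen {χ : Dual H | MapsTo χ K U} := by
  have h := (ContinuousMap.isOpen_setOfPred_mapsTo hKc hU).preimage
    (ContinuousAddMonoidHom.isInducing_toContinuousMap H UnitAddCircle).continuous
  exact h

/-- The dual of a dense `ω`-bounded subgroup is discrete. -/
theorem discrete_dual (hd : Dense (H : Set G2)) (hb : OmegaBounded H) :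
    DiscreteTopology (Dual H) := by
  obtain ⟨x, hx0, hx1⟩ := exists_triangular hd hb
  have hKH := closure_subset hb x hx0
  set K : Set H := Subtype.val ⁻¹' closure (range fun a => (x a : G2)) with hK
  have hKc : IsCompact K := by
    rw [Subtype.isCompact_iff, hK, image_preimage_eq_inter_range, Subtype.range_coe]
    have : closure (range fun a => (x a : G2)) ∩ (H : Set G2) =
        closure (range fun a => (x a : G2)) := inter_eq_left.2 hKH
    change IsCompact (closure (range fun a => (x a : G2)) ∩ (H : Set G2))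
    rw [this]
    exact isClosed_closure.isCompact
  have hopen : IsOpen {χ : Dual H | MapsTo χ K {c : UnitAddCircle | ‖c‖ < 1 / 4}} :=
    isOpen_mapsTo K hKc _ isOpen_small
  have heq : {χ : Dual H | MapsTo χ K {c : UnitAddCircle | ‖c‖ < 1 / 4}} = {0} := by
    ext χ
    rw [mem_singleton_iff]
    constructor
    · intro hχ
      have hχx : ∀ a, χ (x a) = 0 := fun a =>
        eq_zero_of_mem (two_smul_char χ _) (hχ (show x a ∈ K from
          subset_closure (mem_range_self a)))
      ext h
      exact char_eq_zero x hx0 hx1 χ hχx h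
    · rintro rfl
      intro h _
      change ‖(0 : UnitAddCircle)‖ < 1 / 4
      simp
  rw [heq] at hopen
  exact discreteTopology_of_isOpen_singleton_zero hopen

theorem restr_continuous : Continuous (restr H) :=
  ContinuousAddMonoidHom.continuous_comp_left
    (⟨H.subtype, continuous_subtype_val⟩ : H →ₜ+ G2)

end

/-- **Q1 has a negative answer**: there is a non-metrizable compact Hausdorff abelian group
all of whose dense `ω`-bounded subgroups determine it. -/
theorem result : ∃ (G : Type) (_ : AddCommGroup G) (_ : TopologicalSpace G)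
    (_ : IsTopologicalAddGroup G) (_ : T2Space G) (_ : CompactSpace G),
    ¬ MetrizableSpace G ∧
      ∀ H : AddSubgroup G, Dense (H : Set G) → OmegaBounded H → Determines H := by
  refine ⟨G2, inferInstance, inferInstance, inferInstance, inferInstance, inferInstance,
    not_metrizable, fun H hd hb => ?_⟩
  have := discrete_dual hd hb
  exact ⟨restr_continuous, fun U _ => isOpen_discrete _, restr_injective hd,
    restr_surjective hd⟩

end Pool.Agent.Results.MP_04f724_gt.Determined
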